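import Mathlib
import Pool.Agent.Helper76.TC.Goals

/-!
Packet TC-AE (MP_ccd65d_gt).
-/

set_option autoImplicit false

open Set

namespace Pool.Agent.Helper4.TC.AE

open Pool.Agent.Helper50.CT (rv Cov Sh)
open Pool.Agent.Helper76.TC

theorem t (hLV : S_LV) (hPI : S_PI) (hCT2 : S_CT2) : S_AE := by
  classical
  intro n X T _ _ _ π A C N R0 D' E K M y z hcov hturn hpack hK hlt hM hD' hR0 hE hME hyz hgen
  have hK0 : (0 : ℝ) < K := by exact_mod_cast hK
  have hK1 : (1 : ℝ) ≤ K := by exact_mod_cast hK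
  have hn0 : (0 : ℝ) ≤ n := Nat.cast_nonneg n
  set s : ℝ := D' / (2 * K) with hs
  have hs0 : 0 < s := by positivity
  have hsK : 2 * s * K = D' := by
    rw [hs]
    field_simp
  have hsD : s ≤ D' := by nlinarith
  have hnD : 0 ≤ (n : ℝ) * D' := by positivity
  -- the points
  have h1 : ∀ i : ℕ, i < K → ∃ x : X, dist y x = 2 * s * i ∧ dist (π y) (π x) = 2 * s * i := by
    intro i hi
    have hi' : (i : ℝ) ≤ K := by exact_mod_cast hi.le
    refine hLV n A X T π hcov hturn y z (2 * s * i) (by positivity) (le_trans ?_ hyz)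
    rw [← hsK]
    gcongr
  haveI : Nonempty X := ⟨y⟩
  choose! x hx1 hx2 using h1
  have h2 : ∀ i : ℕ, i < K → ∃ F : Finset (Fin n → ℤ), F.card = K ^ n ∧
      (∀ k ∈ F, dist (x i) (k +ᵥ x i) ≤ 2 * n * K * s) ∧
      ∀ k ∈ F, ∀ k' ∈ F, k ≠ k' → s < dist (x i) ((k' - k) +ᵥ x i) := by
    intro i hi
    have hi' : (i : ℝ) ≤ K := by exact_mod_cast hi.le
    have h3 := hPI n X T π hcov (x i) y E s D' M hs0 hE (by
      rw [dist_comm, hx2 i hi, ← hsK]
      gcongr) hME (by
      intro F hF1 hF2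
      have h4 := hpack (x i) s (3 * D') hs0 (by linarith) (by nlinarith) F hF1 hF2
      have h5 : 3 * D' / s = 6 * K := by
        rw [div_eq_iff hs0.ne', ← hsK]
        ring
      rw [h5] at h4
      exact_mod_cast h4.trans hM) hgen
    refine hCT2 n (fun k => dist (x i) (k +ᵥ x i)) s K ?_ ?_ ?_ ?_ hs0.le ?_ hK
    · simp
    · intro k k'
      calc dist (x i) ((k + k') +ᵥ x i) ≤
          dist (x i) (k +ᵥ x i) + dist (k +ᵥ x i) ((k + k') +ᵥ x i) := dist_triangle _ _ _
        _ = dist (x i) (k +ᵥ x i) + dist (x i) (k' +ᵥ x i) := by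
          rw [add_vadd, hcov.isom]
    · intro k
      have h4 := hcov.isom k (x i) ((-k) +ᵥ x i)
      rw [vadd_vadd, add_neg_cancel, zero_vadd] at h4
      change dist (x i) (-k +ᵥ x i) = dist (x i) (k +ᵥ x i)
      rw [← h4, dist_comm]
    · intro r
      exact hcov.fin (x i) (x i) r
    · exact h3
  choose! F hF1 hF2 hF3 using h2
  -- distances to `y`
  have h3 : ∀ i, i < K → ∀ k ∈ F i, dist y (k +ᵥ x i) ≤ ((n : ℝ) + 1) * D' := by
    intro i hi k hk
    have hi' : (i : ℝ) ≤ K := by exact_mod_cast hi.le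
    have h4 : 2 * s * i ≤ D' := by
      rw [← hsK]
      gcongr
    have h5 := hF2 i hi k hk
    have h6 : 2 * (n : ℝ) * K * s = n * D' := by
      rw [← hsK]
      ring
    calc dist y (k +ᵥ x i) ≤ dist y (x i) + dist (x i) (k +ᵥ x i) := dist_triangle _ _ _
      _ ≤ D' + n * D' := by
        rw [hx1 i hi]
        linarith
      _ = ((n : ℝ) + 1) * D' := by ring
  -- separation
  have h4 : ∀ i, i < K → ∀ k ∈ F i, ∀ j, j < K → ∀ k' ∈ F j, (i ≠ j ∨ k ≠ k') →
      s < dist (k +ᵥ x i) (k' +ᵥ x j) := by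
    intro i hi k hk j hj k' hk' hne
    by_cases hij : i = j
    · subst hij
      have hkk : k ≠ k' := by
        rcases hne with h | h
        · exact absurd rfl h
        · exact h
      have h5 := hF3 i hi k hk k' hk' hkk
      have h6 := hcov.isom k (x i) ((k' - k) +ᵥ x i)
      rw [vadd_vadd, add_sub_cancel] at h6
      rw [h6]
      exact h5
    · have h5 : dist (π y) (π (k +ᵥ x i)) = 2 * s * i := by rw [hcov.inv, hx2 i hi]
      have h6 : dist (π y) (π (k' +ᵥ x j)) = 2 * s * j := by rw [hcov.inv, hx2 j hj]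
      have h7 := hcov.le (k +ᵥ x i) (k' +ᵥ x j) 0
      rw [zero_vadd] at h7
      have h8 : |dist (π y) (π (k +ᵥ x i)) - dist (π y) (π (k' +ᵥ x j))| ≤
          dist (π (k +ᵥ x i)) (π (k' +ᵥ x j)) := by
        rw [abs_le]
        have a1 := dist_triangle (π y) (π (k' +ᵥ x j)) (π (k +ᵥ x i))
        have a2 := dist_triangle (π y) (π (k +ᵥ x i)) (π (k' +ᵥ x j))
        rw [dist_comm (π (k' +ᵥ x j))] at a1
        constructor <;> linarith
      rw [h5, h6] at h8
      have h9 : 2 * s ≤ |2 * s * i - 2 * s * j| := by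
        have b1 : |2 * s * (i : ℝ) - 2 * s * j| = 2 * s * |(i : ℝ) - j| := by
          rw [← mul_sub, abs_mul, abs_of_pos (by positivity : (0 : ℝ) < 2 * s)]
        rw [b1]
        have b2 : (1 : ℝ) ≤ |(i : ℝ) - j| := by
          have b3 : (1 : ℤ) ≤ |(i : ℤ) - j| := by
            apply Int.one_le_abs
            omega
          exact_mod_cast b3
        nlinarith
      linarith
  -- the whole set
  set g : (Σ _ : ℕ, (Fin n → ℤ)) → X := fun a => a.2 +ᵥ x a.1 with hg
  set P : Finset (Σ _ : ℕ, (Fin n → ℤ)) := (Finset.range K).sigma F with hP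
  have hmem : ∀ a ∈ P, a.1 < K ∧ a.2 ∈ F a.1 := by
    intro a ha
    rw [hP, Finset.mem_sigma, Finset.mem_range] at ha
    exact ha
  have hsep : ∀ a ∈ P, ∀ b ∈ P, a ≠ b → s < dist (g a) (g b) := by
    intro a ha b hb hab
    obtain ⟨a1, a2⟩ := hmem a ha
    obtain ⟨b1, b2⟩ := hmem b hb
    refine h4 a.1 a1 a.2 a2 b.1 b1 b.2 b2 ?_
    by_contra hcon
    push Not at hcon
    obtain ⟨c1, c2⟩ := hcon
    apply hab
    obtain ⟨a1, a2⟩ := a
    obtain ⟨b1, b2⟩ := b
    simp only at c1 c2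
    subst c1
    subst c2
    rfl
  have hinj : Set.InjOn g (P : Set (Σ _ : ℕ, (Fin n → ℤ))) := by
    intro a ha b hb hab
    by_contra hne
    have := hsep a ha b hb hne
    rw [hab, dist_self] at this
    linarith
  have hcard : (P.image g).card = K ^ (n + 1) := by
    rw [Finset.card_image_of_injOn hinj, hP, Finset.card_sigma,
      Finset.sum_congr rfl (fun i hi => hF1 i (Finset.mem_range.1 hi)), Finset.sum_const,
      Finset.card_range, smul_eq_mul, pow_succ, mul_comm]
  have h5 := hpack y s (((n : ℝ) + 1) * D') hs0 (by nlinarith) (by nlinarith) (P.image g)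
    (by
      intro w hw
      rw [Finset.mem_image] at hw
      obtain ⟨a, ha, rfl⟩ := hw
      obtain ⟨a1, a2⟩ := hmem a ha
      exact h3 a.1 a1 a.2 a2)
    (by
      intro w hw v hv hwv
      rw [Finset.mem_image] at hw hv
      obtain ⟨a, ha, rfl⟩ := hw
      obtain ⟨b, hb, rfl⟩ := hv
      refine hsep a ha b hb ?_
      rintro rfl
      exact hwv rfl)
  rw [hcard] at h5
  have h6 : ((n : ℝ) + 1) * D' / s = 2 * K * (n + 1) := by
    rw [div_eq_iff hs0.ne', ← hsK]
    ring
  rw [h6] at h5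
  push_cast at h5
  linarith

end Pool.Agent.Helper4.TC.AE
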